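import Pool.Agent.H891R2.HO.Defs
import Pool.Agent.H891R2.MT.T2

set_option autoImplicit false

/-! O2: the components of the states of the knotoid -/

namespace Pool.Agent.H891R2.HO.O2

open Finset Pool.Agent.H891R2.HO
open Pool.Agent.H891R2.MT.T2 (card_quot_congr card_add_same card_add_ne)

variable {k : ℕ}

/-- all arcs, and the smoothings of the crossings different from `i₀` -/
def r0 (G : Shadow k) (s : Fin k → Bool) (i₀ : Fin k) (c c' : Fin k × Fin 4) : Prop :=
  c' = G.arc c ∨ (c.1 ≠ i₀ ∧ c' = (c.1, pair (s c.1) c.2))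

/-- the same with all corners of `i₀` joined -/
def r4 (G : Shadow k) (s : Fin k → Bool) (i₀ : Fin k) (c c' : Fin k × Fin 4) : Prop :=
  r0 G s i₀ c c' ∨ (c.1 = i₀ ∧ c'.1 = i₀)

theorem pair_pair (t : Bool) (j : Fin 4) : pair t (pair t j) = j := by
  cases t <;> fin_cases j <;> rfl

theorem pair_cases (t : Bool) (j : Fin 4) : pair t j = j + 1 ∨ pair t j = j + 3 := by
  cases t <;> fin_cases j <;> simp [pair]

/-- the colour of the neighbouring corners -/
theorem chi_three {G : Shadow k} {χ : Fin k × Fin 4 → Bool} (h : ∀ i j, χ (i, j + 1) = !(χ (i, j)))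
    (i : Fin k) (j : Fin 4) : χ (i, j + 3) = !(χ (i, j)) := by
  have h1 := h i j
  have h2 := h i (j + 1)
  have h3 := h i (j + 1 + 1)
  have e : j + 1 + 1 + 1 = j + 3 := by fin_cases j <;> rfl
  rw [e] at h3
  rw [h3, h2, h1]
  simp

theorem chi_pair {G : Shadow k} {χ : Fin k × Fin 4 → Bool} (h : ∀ i j, χ (i, j + 1) = !(χ (i, j)))
    (i : Fin k) (j : Fin 4) (t : Bool) : χ (i, pair t j) = !(χ (i, j)) := by
  rcases pair_cases t j with e | e
  · rw [e]; exact h i j
  · rw [e]; exact chi_three (G := G) h i j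

/-- the flow -/
def flow (G : Shadow k) (s : Fin k → Bool) (χ : Fin k × Fin 4 → Bool)
    (h1 : ∀ c, χ (G.arc c) = !(χ c)) (h2 : ∀ i j, χ (i, j + 1) = !(χ (i, j))) :
    Equiv.Perm (Fin k × Fin 4) where
  toFun c := if χ c = true then (c.1, pair (s c.1) c.2) else G.arc c
  invFun c := if χ c = true then G.arc c else (c.1, pair (s c.1) c.2)
  left_inv c := by
    have hp := chi_pair (G := G) h2 c.1 c.2 (s c.1)
    have ha := h1 c
    by_cases hc : χ c = true
    · have e : χ (c.1, pair (s c.1) c.2) = false := by rw [hp]; simp [hc]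
      simp [hc, e, pair_pair]
    · have hc' : χ c = false := by simpa using hc
      have e : χ (G.arc c) = true := by rw [ha]; simpa using hc
      simp [hc', e, G.arc_arc]
  right_inv c := by
    have hp := chi_pair (G := G) h2 c.1 c.2 (s c.1)
    have ha := h1 c
    by_cases hc : χ c = true
    · have e : χ (G.arc c) = false := by rw [ha]; simp [hc]
      simp [hc, e, G.arc_arc]
    · have hc' : χ c = false := by simpa using hc
      have e : χ (c.1, pair (s c.1) c.2) = true := by rw [hp]; simpa using hc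
      simp [hc', e, pair_pair]

theorem symm_mem {X : Type} [Finite X] (φ : Equiv.Perm X) (W : Set X) (h : ∀ p ∈ W, φ p ∈ W) :
    ∀ p ∈ W, φ.symm p ∈ W := by
  intro p hp
  have h1 : ∀ m : ℕ, (φ ^ m) p ∈ W := by
    intro m
    induction m with
    | zero => simpa using hp
    | succ m ih =>
      rw [pow_succ', Equiv.Perm.mul_apply]
      exact h _ ih
  have hn := orderOf_pos φ
  obtain ⟨m, hm⟩ : ∃ m, orderOf φ = m + 1 := ⟨orderOf φ - 1, by omega⟩
  have h2 := pow_orderOf_eq_one φ
  rw [hm, pow_succ'] at h2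
  have h3 : (φ ^ m) p = φ.symm p := by
    have := congrArg (fun e : Equiv.Perm X => φ.symm (e p)) h2
    simpa using this
  rw [← h3]
  exact h1 m

theorem connect (G : Shadow k) (hG : G.Checkerboard) (i₀ : Fin k) (s : Fin k → Bool) (j : Fin 4) :
    ∃ j' : Fin 4, (j' = j + 1 ∨ j' = j + 3) ∧
      Quot.mk (r0 G s i₀) (i₀, j) = Quot.mk (r0 G s i₀) (i₀, j') := by
  obtain ⟨χ, h1, h2⟩ := hG
  set φ := flow G s χ h1 h2 with hφ
  by_contra hcon
  push Not at hcon
  set W : Set (Fin k × Fin 4) := {p | Quot.mk (r0 G s i₀) (i₀, j) = Quot.mk (r0 G s i₀) p} with hW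
  have hjW : (i₀, j) ∈ W := rfl
  have harc : ∀ p ∈ W, G.arc p ∈ W := by
    intro p hp
    exact hp.trans (Quot.sound (Or.inl rfl))
  have hpair : ∀ p ∈ W, p.1 ≠ i₀ → (p.1, pair (s p.1) p.2) ∈ W := by
    intro p hp hne
    exact hp.trans (Quot.sound (Or.inr ⟨hne, rfl⟩))
  -- corners of the other colour at i₀ are not in W
  have hno : ∀ j' : Fin 4, χ (i₀, j') ≠ χ (i₀, j) → (i₀, j') ∉ W := by
    intro j' hj' hm
    have hcases : j' = j ∨ j' = j + 1 ∨ j' = j + 1 + 1 ∨ j' = j + 3 := by
      fin_cases j <;> fin_cases j' <;> simp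
    rcases hcases with e | e | e | e
    · rw [e] at hj'; exact hj' rfl
    · exact hcon j' (Or.inl e) hm
    · apply hj'
      rw [e, h2, h2]; simp
    · exact hcon j' (Or.inr e) hm
  by_cases hχ : χ (i₀, j) = true
  · -- use the inverse
    have h3 : ∀ p ∈ W, φ.symm p ∈ W := by
      intro p hp
      show (if χ p = true then G.arc p else (p.1, pair (s p.1) p.2)) ∈ W
      by_cases hc : χ p = true
      · rw [if_pos hc]; exact harc p hp
      · rw [if_neg hc]
        refine hpair p hp fun e => ?_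
        have e2 : p = (i₀, p.2) := by rw [← e]
        rw [e2] at hp hc
        refine hno p.2 ?_ hp
        rw [hχ]; exact hc
    have h4 := symm_mem φ.symm W h3 _ hjW
    rw [Equiv.symm_symm] at h4
    have h5 : φ (i₀, j) = (i₀, pair (s i₀) j) := by
      show (if χ (i₀, j) = true then _ else _) = _
      rw [if_pos hχ]
    rw [h5] at h4
    refine hno _ ?_ h4
    rw [chi_pair (G := G) h2, hχ]; simp
  · have h3 : ∀ p ∈ W, φ p ∈ W := by
      intro p hp
      show (if χ p = true then (p.1, pair (s p.1) p.2) else G.arc p) ∈ W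
      by_cases hc : χ p = true
      · rw [if_pos hc]
        refine hpair p hp fun e => ?_
        have e2 : p = (i₀, p.2) := by rw [← e]
        rw [e2] at hp hc
        refine hno p.2 ?_ hp
        rw [hc]
        intro h
        exact hχ h.symm
      · rw [if_neg hc]; exact harc p hp
    have h4 := symm_mem φ W h3 _ hjW
    have h5 : φ.symm (i₀, j) = (i₀, pair (s i₀) j) := by
      show (if χ (i₀, j) = true then _ else _) = _
      rw [if_neg hχ]
    rw [h5] at h4
    refine hno _ ?_ h4
    rw [chi_pair (G := G) h2]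
    simp

/-- if two opposite corners are joined, all four corners are in the same class -/
theorem all_same (G : Shadow k) (hG : G.Checkerboard) (i₀ : Fin k) (s : Fin k → Bool)
    {R : Fin k × Fin 4 → Fin k × Fin 4 → Prop}
    (hR : ∀ c c', r0 G s i₀ c c' → Quot.mk R c = Quot.mk R c') (j : Fin 4)
    (hj : Quot.mk R (i₀, j) = Quot.mk R (i₀, j + 1 + 1)) (j' : Fin 4) :
    Quot.mk R (i₀, j') = Quot.mk R (i₀, j) := by
  have hlift : ∀ c c', Quot.mk (r0 G s i₀) c = Quot.mk (r0 G s i₀) c' →
      Quot.mk R c = Quot.mk R c' := by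
    intro c c' h
    exact congrArg (Quot.lift (fun c => Quot.mk R c) hR) h
  have hcases : j' = j ∨ j' = j + 1 ∨ j' = j + 1 + 1 ∨ j' = j + 3 := by
    fin_cases j <;> fin_cases j' <;> simp
  have hodd : ∀ l : Fin 4, (l = j + 1 ∨ l = j + 3) → Quot.mk R (i₀, l) = Quot.mk R (i₀, j) := by
    intro l hl
    obtain ⟨m, hm, hm2⟩ := connect G hG i₀ s l
    have h := hlift _ _ hm2
    have hmj : m = j ∨ m = j + 1 + 1 := by
      rcases hl with rfl | rfl <;> rcases hm with rfl | rfl <;> fin_cases j <;> simp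
    rcases hmj with rfl | rfl
    · exact h
    · exact h.trans hj.symm
  rcases hcases with e | e | e | e
  · rw [e]
  · exact hodd _ (Or.inl e)
  · rw [e]; exact hj.symm
  · exact hodd _ (Or.inr e)

theorem comps_card (G : Shadow k) (hG : G.Checkerboard) (i₀ : Fin k) (b : Bool) (s : Fin k → Bool) :
    G.comps i₀ b (fun i => s i) = Nat.card (Quot (r4 G s i₀)) := by
  unfold Shadow.comps
  apply card_quot_congr
  · rintro c c' (h | ⟨h, h'⟩ | ⟨-, h, h'⟩ | ⟨-, h, h'⟩)
    · exact Quot.sound (Or.inl (Or.inl h))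
    · exact Quot.sound (Or.inl (Or.inr ⟨h, h'⟩))
    · exact Quot.sound (Or.inr ⟨by rw [h], by rw [h']⟩)
    · exact Quot.sound (Or.inr ⟨by rw [h], by rw [h']⟩)
  · set R : Fin k × Fin 4 → Fin k × Fin 4 → Prop := fun c c' => c' = G.arc c ∨
      (∃ h : c.1 ≠ i₀, c' = (c.1, pair ((fun i : {i : Fin k // i ≠ i₀} => s i) ⟨c.1, h⟩) c.2)) ∨
      (b = false ∧ c = (i₀, 0) ∧ c' = (i₀, 2)) ∨ (b = true ∧ c = (i₀, 1) ∧ c' = (i₀, 3)) with hRdef
    have hR : ∀ c c', r0 G s i₀ c c' → Quot.mk R c = Quot.mk R c' := by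
      rintro c c' (h | ⟨h, h'⟩)
      · exact Quot.sound (Or.inl h)
      · exact Quot.sound (Or.inr (Or.inl ⟨h, h'⟩))
    rintro c c' (h | ⟨h, h'⟩)
    · exact hR c c' h
    · have e1 : c = (i₀, c.2) := by rw [← h]
      have e2 : c' = (i₀, c'.2) := by rw [← h']
      rw [e1, e2]
      cases b
      · have hj : Quot.mk R (i₀, 0) = Quot.mk R (i₀, 0 + 1 + 1) :=
          Quot.sound (Or.inr (Or.inr (Or.inl ⟨rfl, rfl, rfl⟩)))
        exact (all_same G hG i₀ s hR 0 hj _).trans (all_same G hG i₀ s hR 0 hj _).symm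
      · have hj : Quot.mk R (i₀, 1) = Quot.mk R (i₀, 1 + 1 + 1) :=
          Quot.sound (Or.inr (Or.inr (Or.inr ⟨rfl, rfl, rfl⟩)))
        exact (all_same G hG i₀ s hR 1 hj _).trans (all_same G hG i₀ s hR 1 hj _).symm

theorem loops_card (G : Shadow k) (i₀ : Fin k) (t : Bool) (s : Fin k → Bool) :
    G.loops (Function.update s i₀ t) = Nat.card (Quot (r4 G s i₀)) ∨
      G.loops (Function.update s i₀ t) = Nat.card (Quot (r4 G s i₀)) + 1 := by
  set R : Fin k × Fin 4 → Fin k × Fin 4 → Prop := fun c c' => c' = G.arc c ∨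
    c' = (c.1, pair (Function.update s i₀ t c.1) c.2) with hRdef
  have hloops : G.loops (Function.update s i₀ t) = Nat.card (Quot R) := rfl
  set R' : Fin k × Fin 4 → Fin k × Fin 4 → Prop :=
    fun c c' => R c c' ∨ (c = (i₀, 0) ∧ c' = (i₀, 2)) with hR'
  have hR0 : ∀ c c', R c c' → Quot.mk R' c = Quot.mk R' c' := fun c c' h => Quot.sound (Or.inl h)
  have hpp : ∀ j : Fin 4, Quot.mk R' (i₀, j) = Quot.mk R' (i₀, pair t j) := by
    intro j
    refine hR0 _ _ (Or.inr ?_)
    simp only [Function.update_self]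
  have h02 : Quot.mk R' (i₀, (0 : Fin 4)) = Quot.mk R' (i₀, 2) := Quot.sound (Or.inr ⟨rfl, rfl⟩)
  have hall : ∀ j : Fin 4, Quot.mk R' (i₀, j) = Quot.mk R' (i₀, 0) := by
    intro j
    cases t
    · have a1 : Quot.mk R' (i₀, (1 : Fin 4)) = Quot.mk R' (i₀, 2) := hpp 1
      have a3 : Quot.mk R' (i₀, (3 : Fin 4)) = Quot.mk R' (i₀, 0) := hpp 3
      fin_cases j
      · rfl
      · exact a1.trans h02.symm
      · exact h02.symm
      · exact a3
    · have a1 : Quot.mk R' (i₀, (1 : Fin 4)) = Quot.mk R' (i₀, 0) := hpp 1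
      have a3 : Quot.mk R' (i₀, (3 : Fin 4)) = Quot.mk R' (i₀, 2) := hpp 3
      fin_cases j
      · rfl
      · exact a1
      · exact h02.symm
      · exact a3.trans h02.symm
  have hcard : Nat.card (Quot R') = Nat.card (Quot (r4 G s i₀)) := by
    apply card_quot_congr
    · rintro c c' ((h | h) | ⟨h, h'⟩)
      · exact Quot.sound (Or.inl (Or.inl h))
      · by_cases hc : c.1 = i₀
        · exact Quot.sound (Or.inr ⟨hc, by rw [h]; exact hc⟩)
        · rw [Function.update_of_ne hc] at h
          exact Quot.sound (Or.inl (Or.inr ⟨hc, h⟩))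
      · exact Quot.sound (Or.inr ⟨by rw [h], by rw [h']⟩)
    · rintro c c' ((h | ⟨h, h'⟩) | ⟨h, h'⟩)
      · exact Quot.sound (Or.inl (Or.inl h))
      · refine Quot.sound (Or.inl (Or.inr ?_))
        rw [Function.update_of_ne h]
        exact h'
      · have e1 : c = (i₀, c.2) := by rw [← h]
        have e2 : c' = (i₀, c'.2) := by rw [← h']
        rw [e1, e2]
        exact (hall _).trans (hall _).symm
  rw [hloops]
  by_cases h : Quot.mk R (i₀, (0 : Fin 4)) = Quot.mk R (i₀, 2)
  · left
    rw [← hcard]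
    exact (card_add_same R _ _ h).symm
  · right
    rw [← hcard]
    exact (card_add_ne R _ _ h).symm

/-- O2: the components of the states of the knotoid (uses O1) -/
theorem comps_eq (loops_flip : ∀ {k : ℕ} (G : Shadow k) (_ : G.Checkerboard) (s : Fin k → Bool)
      (i : Fin k),
      G.loops (Function.update s i true) = G.loops (Function.update s i false) + 1 ∨
      G.loops (Function.update s i false) = G.loops (Function.update s i true) + 1)
    (G : Shadow k) (hG : G.Checkerboard) (i₀ : Fin k) (b : Bool) (s : Fin k → Bool) :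
    G.comps i₀ b (fun i => s i) =
      min (G.loops (Function.update s i₀ true)) (G.loops (Function.update s i₀ false)) := by
  rw [comps_card G hG i₀ b s]
  have h1 := loops_card G i₀ true s
  have h2 := loops_card G i₀ false s
  have h3 := loops_flip G hG s i₀
  omega

end Pool.Agent.H891R2.HO.O2
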