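import Pool.Agent.H891R2.HO.Defs

set_option autoImplicit false

/-! Task O3: the bracket of the knotoid. -/

namespace Pool.Agent.H891R2.HO.O3

open Finset LaurentPolynomial

variable {k : ℕ}

theorem loops_pos (G : Shadow k) (i₀ : Fin k) (s : Fin k → Bool) : 1 ≤ G.loops s := by
  unfold Shadow.loops
  have : Finite (Quot (fun c c' : Fin k × Fin 4 => c' = G.arc c ∨ c' = (c.1, pair (s c.1) c.2))) :=
    Quot.finite _
  have : Nonempty (Quot (fun c c' : Fin k × Fin 4 =>
    c' = G.arc c ∨ c' = (c.1, pair (s c.1) c.2))) := ⟨Quot.mk _ (i₀, 0)⟩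
  exact Nat.card_pos

theorem dd_mul : (T 1 + T (-1) : ℤ[T;T⁻¹]) * (1 + dd) = -(T 3 + T (-3)) := by
  unfold dd
  have h : (T 1 + T (-1) : ℤ[T;T⁻¹]) * (1 + (-T 2 - T (-2))) =
      T 1 + T (-1) - T 1 * T 2 - T 1 * T (-2) - T (-1) * T 2 - T (-1) * T (-2) := by ring
  rw [h, ← T_add, ← T_add, ← T_add, ← T_add]
  norm_num
  ring

/-- the state with the value `t` at `i₀` -/
noncomputable def st (i₀ : Fin k) (t : Bool) (s : {i : Fin k // i ≠ i₀} → Bool) : Fin k → Bool :=
  (Equiv.funSplitAt i₀ Bool).symm (t, s)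

theorem st_self (i₀ : Fin k) (t : Bool) (s : {i : Fin k // i ≠ i₀} → Bool) : st i₀ t s i₀ = t := by
  unfold st
  simp [Equiv.funSplitAt]

theorem st_ne (i₀ : Fin k) (t : Bool) (s : {i : Fin k // i ≠ i₀} → Bool) (i : {i : Fin k // i ≠ i₀}) :
    st i₀ t s i = s i := by
  unfold st
  simp [Equiv.funSplitAt, i.2]

theorem st_update (i₀ : Fin k) (t t' : Bool) (s : {i : Fin k // i ≠ i₀} → Bool) :
    Function.update (st i₀ t' s) i₀ t = st i₀ t s := by
  funext i
  by_cases h : i = i₀
  · subst h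
    rw [Function.update_self, st_self]
  · rw [Function.update_of_ne h]
    rw [st_ne i₀ t' s ⟨i, h⟩, st_ne i₀ t s ⟨i, h⟩]

theorem sum_split (i₀ : Fin k) (F : (Fin k → Bool) → ℤ[T;T⁻¹]) :
    ∑ s, F s = ∑ s : {i : Fin k // i ≠ i₀} → Bool, (F (st i₀ true s) + F (st i₀ false s)) := by
  rw [← (Equiv.funSplitAt i₀ Bool).symm.sum_comp F, Fintype.sum_prod_type_right]
  refine Finset.sum_congr rfl fun s _ => ?_
  rw [Fintype.sum_bool]
  rfl

theorem wt_split (i₀ : Fin k) (t : Bool) (s : {i : Fin k // i ≠ i₀} → Bool) (w : Fin k → Bool) :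
    (∑ i, if st i₀ t s i = w i then (1 : ℤ) else -1) =
      (if t = w i₀ then 1 else -1) + ∑ i : {i : Fin k // i ≠ i₀}, if s i = w i then (1 : ℤ) else -1 := by
  rw [Fintype.sum_eq_add_sum_subtype_ne _ i₀, st_self]
  congr 1
  refine Finset.sum_congr rfl fun i _ => ?_
  rw [st_ne]

theorem wt_switch (i₀ : Fin k) (t : Bool) (s : {i : Fin k // i ≠ i₀} → Bool) (w : Fin k → Bool) :
    (∑ i, if st i₀ t s i = switch w i₀ i then (1 : ℤ) else -1) =
      -(if t = w i₀ then 1 else -1) +
        ∑ i : {i : Fin k // i ≠ i₀}, if s i = w i then (1 : ℤ) else -1 := by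
  rw [wt_split]
  congr 1
  · unfold switch
    rw [Function.update_self]
    cases t <;> cases w i₀ <;> simp
  · refine Finset.sum_congr rfl fun i _ => ?_
    unfold switch
    rw [Function.update_of_ne i.2]

/-- O3: the bracket of the knotoid (uses O1, O2) -/
theorem bracket_switch
    (loops_flip : ∀ {k : ℕ} (G : Shadow k) (_hG : G.Checkerboard) (s : Fin k → Bool) (i : Fin k),
      G.loops (Function.update s i true) = G.loops (Function.update s i false) + 1 ∨
        G.loops (Function.update s i false) = G.loops (Function.update s i true) + 1)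
    (comps_eq : ∀ {k : ℕ} (G : Shadow k) (_hG : G.Checkerboard) (i₀ : Fin k) (b : Bool)
      (s : Fin k → Bool), G.comps i₀ b (fun i => s i) =
        min (G.loops (Function.update s i₀ true)) (G.loops (Function.update s i₀ false)))
    (G : Shadow k) (hG : G.Checkerboard) (w : Fin k → Bool) (i₀ : Fin k) (b : Bool) :
    G.bracket w + G.bracket (switch w i₀) = -(T 3 + T (-3)) * G.bracketK w i₀ b := by
  unfold Shadow.bracket Shadow.bracketK
  rw [sum_split i₀, sum_split i₀, ← Finset.sum_add_distrib, Finset.mul_sum]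
  refine Finset.sum_congr rfl fun s _ => ?_
  rw [wt_split, wt_split, wt_switch, wt_switch]
  have h1 := loops_flip G hG (st i₀ true s) i₀
  have h2 := comps_eq G hG i₀ b (st i₀ true s)
  rw [st_update, st_update] at h1 h2
  have h3 : (fun i : {i : Fin k // i ≠ i₀} => st i₀ true s i) = s := by
    funext i
    exact st_ne i₀ true s i
  rw [h3] at h2
  rw [h2]
  have hA := loops_pos G i₀ (st i₀ true s)
  have hB := loops_pos G i₀ (st i₀ false s)
  generalize G.loops (st i₀ true s) = LA at *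
  generalize G.loops (st i₀ false s) = LB at *
  generalize (∑ i : {i : Fin k // i ≠ i₀}, if s i = w i then (1 : ℤ) else -1) = W
  have key : dd ^ (LA - 1) + dd ^ (LB - 1) = (1 + dd) * dd ^ (min LA LB - 1) := by
    rcases h1 with h | h
    · have e1 : min LA LB = LB := by omega
      have e2 : LA - 1 = (LB - 1) + 1 := by omega
      rw [e1, e2, pow_succ]
      ring
    · have e1 : min LA LB = LA := by omega
      have e2 : LB - 1 = (LA - 1) + 1 := by omega
      rw [e1, e2, pow_succ]
      ring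
  have hT : ∀ t : Bool, (T ((if t = w i₀ then (1 : ℤ) else -1) + W) : ℤ[T;T⁻¹]) +
      T (-(if t = w i₀ then (1 : ℤ) else -1) + W) = (T 1 + T (-1)) * T W := by
    intro t
    rw [T_add, T_add, ← add_mul]
    congr 1
    split_ifs
    · rfl
    · rw [neg_neg, add_comm]
  calc _ = (T ((if true = w i₀ then (1 : ℤ) else -1) + W) +
          T (-(if true = w i₀ then (1 : ℤ) else -1) + W)) * dd ^ (LA - 1) +
          (T ((if false = w i₀ then (1 : ℤ) else -1) + W) +
          T (-(if false = w i₀ then (1 : ℤ) else -1) + W)) * dd ^ (LB - 1) := by ring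
    _ = ((T 1 + T (-1)) * T W) * (dd ^ (LA - 1) + dd ^ (LB - 1)) := by rw [hT, hT]; ring
    _ = ((T 1 + T (-1)) * (1 + dd)) * (T W * dd ^ (min LA LB - 1)) := by rw [key]; ring
    _ = _ := by rw [dd_mul]

end Pool.Agent.H891R2.HO.O3
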