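import Pool.Agent.H891R2.HO.Defs

set_option autoImplicit false

/-! O4: the normalised bracket of the knotoid (from O3). -/

namespace Pool.Agent.H891R2.HO.O4

open Finset LaurentPolynomial
open Pool.Agent.H891R2.HO

variable {k : ℕ}

theorem unit_up (W : ℤ) : T 3 * Shadow.unit W = -Shadow.unit (W - 1) := by
  unfold Shadow.unit
  have h1 : (T (-3 * (W - 1)) : ℤ[T;T⁻¹]) = T 3 * T (-3 * W) := by
    rw [← T_add]
    congr 1
    ring
  rw [h1]
  by_cases hW : Even W
  · have h2 : ¬ Even (W - 1) := by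
      rw [Int.even_sub_one]
      exact not_not.mpr hW
    rw [if_pos hW, if_neg h2]
    ring
  · have h2 : Even (W - 1) := by
      rw [Int.even_sub_one]
      exact hW
    rw [if_neg hW, if_pos h2]
    ring

theorem unit_down (W : ℤ) : T (-3) * Shadow.unit (W - 2) = -Shadow.unit (W - 1) := by
  have h := unit_up (W - 1)
  rw [show W - 1 - 1 = W - 2 by ring] at h
  have h2 : (T (-3) : ℤ[T;T⁻¹]) * T 3 = 1 := by
    rw [← T_add, ← T_zero]
    congr 1
  have h3 : Shadow.unit (W - 2) = -(T 3 * Shadow.unit (W - 1)) := by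
    rw [h, neg_neg]
  rw [h3, mul_neg, ← mul_assoc, h2, one_mul]

theorem sign_switch_ne (w : Fin k → Bool) (o : Fin k × Fin 4 → Bool) (i₀ i : Fin k) (h : i ≠ i₀) :
    Shadow.sign (switch w i₀) o i = Shadow.sign w o i := by
  unfold Shadow.sign switch
  rw [Function.update_of_ne h]

theorem sign_switch_self (w : Fin k → Bool) (o : Fin k × Fin 4 → Bool) (i₀ : Fin k)
    (hs : Shadow.sign w o i₀ = 1) : Shadow.sign (switch w i₀) o i₀ = -1 := by
  unfold Shadow.sign at hs ⊢
  unfold switch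
  rw [Function.update_self]
  cases hw : w i₀ <;> rw [hw] at hs <;> by_cases h : o (i₀, 0) = o (i₀, 1) <;> simp_all

/-- O4: the normalised bracket of the knotoid (uses O3) -/
theorem fK_relation
    (bracket_switch : ∀ {k : ℕ} (G : Shadow k) (_ : G.Checkerboard) (w : Fin k → Bool)
      (i₀ : Fin k) (b : Bool),
      G.bracket w + G.bracket (switch w i₀) = -(T 3 + T (-3)) * G.bracketK w i₀ b)
    (G : Shadow k) (hG : G.Checkerboard) (w : Fin k → Bool)
    (o : Fin k × Fin 4 → Bool) (i₀ : Fin k) (b : Bool) (hs : Shadow.sign w o i₀ = 1) :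
    (T 3 + T (-3)) * G.fK w o i₀ b = T 3 * G.f w o + T (-3) * G.f (switch w i₀) o := by
  have h3 := bracket_switch G hG w i₀ b
  set W : ℤ := ∑ i, Shadow.sign w o i with hW
  have e1 : ∑ i : {i : Fin k // i ≠ i₀}, Shadow.sign w o i = W - 1 := by
    have := Fintype.sum_eq_add_sum_subtype_ne (fun i => Shadow.sign w o i) i₀
    rw [hs] at this
    rw [hW, this]
    ring
  have e2 : ∑ i, Shadow.sign (switch w i₀) o i = W - 2 := by
    have h1 := Fintype.sum_eq_add_sum_subtype_ne (fun i => Shadow.sign (switch w i₀) o i) i₀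
    rw [sign_switch_self w o i₀ hs] at h1
    have h2 : ∑ i : {i : Fin k // i ≠ i₀}, Shadow.sign (switch w i₀) o i = W - 1 := by
      rw [← e1]
      exact Finset.sum_congr rfl fun i _ => sign_switch_ne w o i₀ i.1 i.2
    rw [h1, h2]
    ring
  unfold Shadow.fK Shadow.f
  rw [e1, e2, ← hW, ← mul_assoc (T 3 : ℤ[T;T⁻¹]) (Shadow.unit W), unit_up,
    ← mul_assoc (T (-3) : ℤ[T;T⁻¹]) (Shadow.unit (W - 2)), unit_down]
  linear_combination Shadow.unit (W - 1) * h3

end Pool.Agent.H891R2.HO.O4
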