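import Pool.Agent.H891R2.HO.Defs
import Pool.Agent.H891R2.MT.T2

set_option autoImplicit false

/-! O5: the number of Seifert circles of a knot diagram.  Prover: helper676. -/

namespace Pool.Agent.H891R2.HO.O5

open Finset LaurentPolynomial Equiv Pool.Agent.H891R2.MT.T2

variable {k : ℕ}

/-- the type of the oriented smoothing -/
def ty (o : Fin k × Fin 4 → Bool) (i : Fin k) : Bool := xor (o (i, 0)) (o (i, 1))

/-- the way through the crossings, smoothed in `U` -/
def thru (o : Fin k × Fin 4 → Bool) (U : Finset (Fin k)) (c : Fin k × Fin 4) : Fin k × Fin 4 :=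
  if c.1 ∈ U then (c.1, pair (ty o c.1) c.2) else (c.1, c.2 + 2)

theorem pair_pair (t : Bool) (j : Fin 4) : pair t (pair t j) = j := by
  revert t j; decide

theorem add_two_two (j : Fin 4) : j + 2 + 2 = j := by
  revert j; decide

theorem thru_thru (o : Fin k × Fin 4 → Bool) (U : Finset (Fin k)) (c : Fin k × Fin 4) :
    thru o U (thru o U c) = c := by
  obtain ⟨i, j⟩ := c
  by_cases h : i ∈ U
  · simp [thru, h, pair_pair]
  · simp [thru, h, add_two_two]

theorem o_pair (o : Fin k × Fin 4 → Bool) (ho : ∀ i j, o (i, j + 2) = !(o (i, j))) (i : Fin k)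
    (j : Fin 4) : o (i, pair (ty o i) j) = !(o (i, j)) := by
  have h2 : o (i, 2) = !(o (i, 0)) := ho i 0
  have h3 : o (i, 3) = !(o (i, 1)) := ho i 1
  unfold ty
  cases h0 : o (i, 0) <;> cases h1 : o (i, 1) <;> rw [h0] at h2 <;> rw [h1] at h3 <;>
    fin_cases j <;> simp [pair, h0, h1, h2, h3]

theorem o_thru (o : Fin k × Fin 4 → Bool) (ho : ∀ i j, o (i, j + 2) = !(o (i, j)))
    (U : Finset (Fin k)) (c : Fin k × Fin 4) : o (thru o U c) = !(o c) := by
  obtain ⟨i, j⟩ := c
  unfold thru
  split_ifs
  · exact o_pair o ho i j
  · exact ho i j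

/-- the strand permutation -/
def nx (G : Shadow k) (o : Fin k × Fin 4 → Bool) (ho : G.Oriented o) (U : Finset (Fin k)) :
    Perm (Fin k × Fin 4) where
  toFun c := if o c = true then thru o U c else G.arc c
  invFun c := if o c = true then G.arc c else thru o U c
  left_inv c := by
    cases h : o c
    · simp [h, ho.1, G.arc_arc]
    · simp [h, o_thru o ho.2, thru_thru]
  right_inv c := by
    cases h : o c
    · simp [h, o_thru o ho.2, thru_thru]
    · simp [h, ho.1, G.arc_arc]

theorem nx_apply (G : Shadow k) (o : Fin k × Fin 4 → Bool) (ho : G.Oriented o)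
    (U : Finset (Fin k)) (c : Fin k × Fin 4) :
    nx G o ho U c = if o c = true then thru o U c else G.arc c := rfl

theorem cyc_nx (G : Shadow k) (o : Fin k × Fin 4 → Bool) (ho : G.Oriented o)
    (U : Finset (Fin k)) : cyc (nx G o ho U) =
      Nat.card (Quot (fun c c' : Fin k × Fin 4 => c' = G.arc c ∨ c' = thru o U c)) := by
  unfold cyc
  apply card_quot_congr
  · intro x y h
    rw [nx_apply] at h
    apply Quot.sound
    split_ifs at h
    · exact Or.inr h.symm
    · exact Or.inl h.symm
  · intro x y h
    cases hx : o x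
    · rcases h with h | h
      · apply Quot.sound
        rw [nx_apply, if_neg (by rw [hx]; simp), h]
      · refine (Quot.sound ?_).symm
        rw [nx_apply, if_pos (by rw [h, o_thru o ho.2, hx]; rfl), h, thru_thru]
    · rcases h with h | h
      · refine (Quot.sound ?_).symm
        rw [nx_apply, if_neg (by rw [h, ho.1, hx]; simp), h, G.arc_arc]
      · apply Quot.sound
        rw [nx_apply, if_pos hx, h]

theorem nx_insert (G : Shadow k) (o : Fin k × Fin 4 → Bool) (ho : G.Oriented o)
    (U : Finset (Fin k)) (i : Fin k) (hi : i ∉ U) :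
    ∃ u v : Fin k × Fin 4, u ≠ v ∧ nx G o ho (insert i U) = swap u v * nx G o ho U := by
  have h2 : o (i, 2) = !(o (i, 0)) := ho.2 i 0
  have h3 : o (i, 3) = !(o (i, 1)) := ho.2 i 1
  refine ⟨(i, if o (i, 0) = true then 2 else 0), (i, if o (i, 1) = true then 3 else 1), ?_, ?_⟩
  · intro h
    have := congrArg Prod.snd h
    revert this
    split_ifs <;> simp
  · set u : Fin k × Fin 4 := (i, if o (i, 0) = true then 2 else 0) with hu
    set v : Fin k × Fin 4 := (i, if o (i, 1) = true then 3 else 1) with hv
    have hou : o u = false := by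
      rw [hu]
      cases h0 : o (i, 0)
      · simp [h0]
      · simp [h0, h2]
    have hov : o v = false := by
      rw [hv]
      cases h0 : o (i, 1)
      · simp [h0]
      · simp [h0, h3]
    ext1 c
    rw [Perm.mul_apply, nx_apply, nx_apply]
    cases hc : o c
    · have h1 : o (G.arc c) = true := by rw [ho.1, hc]; rfl
      rw [if_neg (by simp), if_neg (by simp), swap_apply_of_ne_of_ne]
      · intro h
        rw [h, hou] at h1
        exact absurd h1 (by simp)
      · intro h
        rw [h, hov] at h1
        exact absurd h1 (by simp)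
    · rw [if_pos rfl, if_pos rfl]
      obtain ⟨i', j⟩ := c
      by_cases hii : i' = i
      · subst hii
        have e1 : thru o (insert i' U) (i', j) = (i', pair (ty o i') j) := by
          simp [thru]
        have e2 : thru o U (i', j) = (i', j + 2) := by
          simp [thru, hi]
        rw [e1, e2, hu, hv]
        unfold ty
        cases h0 : o (i', 0) <;> cases h1 : o (i', 1) <;> rw [h0] at h2 <;> rw [h1] at h3 <;>
          fin_cases j <;> simp_all [pair, swap_apply_def]
      · have e1 : thru o (insert i U) (i', j) = thru o U (i', j) := by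
          simp [thru, hii]
        have e2 : (thru o U (i', j)).1 = i' := by
          unfold thru
          split_ifs <;> rfl
        rw [e1, swap_apply_of_ne_of_ne]
        · intro h
          rw [h] at e2
          exact hii e2.symm
        · intro h
          rw [h] at e2
          exact hii e2.symm

theorem loops_seifert (G : Shadow k) (o : Fin k × Fin 4 → Bool) (ho : G.Oriented o)
    (hK : G.IsKnot) :
    (G.loops (fun i => xor (o (i, 0)) (o (i, 1))) + k) % 2 = 1 := by
  have h0 : cyc (nx G o ho ∅) = 1 := by
    rw [cyc_nx]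
    unfold Shadow.IsKnot at hK
    rw [← hK]
    have e : (fun c c' : Fin k × Fin 4 => c' = G.arc c ∨ c' = thru o ∅ c) =
        fun c c' : Fin k × Fin 4 => c' = G.arc c ∨ c' = (c.1, c.2 + 2) := by
      funext c c'
      simp [thru]
    rw [e]
  have h1 : cyc (nx G o ho univ) = G.loops (fun i => xor (o (i, 0)) (o (i, 1))) := by
    rw [cyc_nx]
    unfold Shadow.loops
    have e : (fun c c' : Fin k × Fin 4 => c' = G.arc c ∨ c' = thru o univ c) =
        fun c c' : Fin k × Fin 4 => c' = G.arc c ∨
          c' = (c.1, pair ((fun i => xor (o (i, 0)) (o (i, 1))) c.1) c.2) := by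
      funext c c'
      simp [thru, ty]
    rw [e]
  have h2 : ∀ U : Finset (Fin k), (cyc (nx G o ho U) + U.card) % 2 = 1 := by
    intro U
    induction U using Finset.induction_on with
    | empty => simp [h0]
    | insert i U hi ih =>
      obtain ⟨u, v, huv, he⟩ := nx_insert G o ho U i hi
      rw [he, card_insert_of_notMem hi]
      have h3 := cyc_swap (nx G o ho U) u v huv
      by_cases hs : (nx G o ho U).SameCycle u v
      · have := h3.1 hs
        omega
      · have := h3.2 hs
        omega
  have h3 := h2 univ
  rw [card_univ, Fintype.card_fin, h1] at h3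
  exact h3

end Pool.Agent.H891R2.HO.O5
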