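import Pool.Agent.H891R2.HO.Defs

set_option autoImplicit false

/-!
The exponents of the normalised bracket of a checkerboard coloured knot diagram are divisible by four.
-/

namespace Pool.Agent.H891R2.HO.O6

open Finset LaurentPolynomial

/-- all exponents are congruent to `m` modulo `4` -/
def Sup (m : ℤ) (p : ℤ[T;T⁻¹]) : Prop := ∀ j, p.coeff j ≠ 0 → (4 : ℤ) ∣ j - m

theorem coeff_mul_T (f : ℤ[T;T⁻¹]) (m a : ℤ) : (f * T m).coeff a = f.coeff (a - m) := by
  have h := AddMonoidAlgebra.coeff_mul_single_eq_coeff_mul (r := (1 : ℤ)) (x := f) (m := m)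
    (m₁ := a) (a - m) (fun m' _ => by constructor <;> intro h <;> omega)
  rw [mul_one] at h
  exact h

theorem Sup.zero (m : ℤ) : Sup m 0 := by
  intro j hj
  exact absurd rfl hj

theorem Sup.add {m : ℤ} {p q : ℤ[T;T⁻¹]} (hp : Sup m p) (hq : Sup m q) : Sup m (p + q) := by
  intro j hj
  rw [AddMonoidAlgebra.coeff_add, Finsupp.add_apply] at hj
  by_cases h : p.coeff j = 0
  · apply hq; intro h2; apply hj; rw [h, h2, add_zero]
  · exact hp j h

theorem Sup.neg {m : ℤ} {p : ℤ[T;T⁻¹]} (hp : Sup m p) : Sup m (-p) := by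
  intro j hj
  rw [AddMonoidAlgebra.coeff_neg, Finsupp.neg_apply, neg_ne_zero] at hj
  exact hp j hj

theorem Sup.sum {ι : Type*} {m : ℤ} (s : Finset ι) (p : ι → ℤ[T;T⁻¹]) (h : ∀ i ∈ s, Sup m (p i)) :
    Sup m (∑ i ∈ s, p i) :=
  Finset.sum_induction p (Sup m) (fun _ _ h1 h2 => h1.add h2) (Sup.zero m) h

theorem Sup.mul_T {m : ℤ} {p : ℤ[T;T⁻¹]} (hp : Sup m p) (n : ℤ) : Sup (m + n) (p * T n) := by
  intro j hj
  rw [coeff_mul_T] at hj
  have := hp _ hj
  have e : j - (m + n) = j - n - m := by ring
  rw [e]; exact this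

theorem Sup.congr {m m' : ℤ} {p : ℤ[T;T⁻¹]} (hp : Sup m p) (h : (4 : ℤ) ∣ m - m') : Sup m' p := by
  intro j hj
  have := hp j hj
  omega

theorem Sup.one : Sup 0 (1 : ℤ[T;T⁻¹]) := by
  intro j hj
  have h := C_apply (R := ℤ) 1 j
  rw [map_one] at h
  rw [h] at hj
  by_cases h2 : j = 0
  · subst h2; simp
  · rw [if_neg h2] at hj; exact absurd rfl hj

theorem Sup.dd_pow (n : ℕ) : Sup (2 * n) (dd ^ n) := by
  induction n with
  | zero => simpa using Sup.one
  | succ n ih =>
    have e : (dd : ℤ[T;T⁻¹]) ^ (n + 1) = -(dd ^ n * T 2) + -(dd ^ n * T (-2)) := by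
      rw [pow_succ]; unfold dd; ring
    rw [e]
    refine Sup.add ?_ ?_
    · refine ((ih.mul_T 2).neg).congr ?_
      push_cast; ring_nf; omega
    · refine ((ih.mul_T (-2)).neg).congr ?_
      push_cast; ring_nf; omega

variable {k : ℕ}

/-- the exponent of a state -/
noncomputable def e (G : Shadow k) (w : Fin k → Bool) (s : Fin k → Bool) : ℤ :=
  (∑ i, if s i = w i then 1 else -1) + 2 * ((G.loops s : ℤ) - 1)

theorem wt_update (w s : Fin k → Bool) (i : Fin k) (b : Bool) :
    (∑ i', if Function.update s i b i' = w i' then (1 : ℤ) else -1) =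
      (if b = w i then 1 else -1) + ∑ i' ∈ univ.erase i, (if s i' = w i' then (1 : ℤ) else -1) := by
  rw [← Finset.add_sum_erase univ _ (mem_univ i)]
  congr 1
  · simp
  · refine Finset.sum_congr rfl fun i' hi' => ?_
    rw [Function.update_of_ne (Finset.mem_erase.mp hi').1]

theorem e_update (G : Shadow k) (w s : Fin k → Bool) (i : Fin k)
    (h : G.loops (Function.update s i true) = G.loops (Function.update s i false) + 1 ∨
      G.loops (Function.update s i false) = G.loops (Function.update s i true) + 1) :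
    (4 : ℤ) ∣ e G w (Function.update s i true) - e G w (Function.update s i false) := by
  unfold e
  rw [wt_update, wt_update]
  cases hw : w i <;> rcases h with h | h <;> rw [h] <;> simp <;> ring_nf <;> omega

theorem e_update' (G : Shadow k) (w : Fin k → Bool)
    (h : ∀ (s : Fin k → Bool) (i : Fin k),
      G.loops (Function.update s i true) = G.loops (Function.update s i false) + 1 ∨
      G.loops (Function.update s i false) = G.loops (Function.update s i true) + 1)
    (s : Fin k → Bool) (i : Fin k) (b : Bool) :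
    (4 : ℤ) ∣ e G w (Function.update s i b) - e G w s := by
  have h1 := e_update G w s i (h s i)
  have h2 : s = Function.update s i (s i) := (Function.update_eq_self i s).symm
  cases hb : b <;> cases hs : s i
  · rw [hs] at h2; rw [← h2]; simp
  · rw [hs] at h2
    rw [← h2] at h1
    have := (dvd_neg (α := ℤ)).mpr h1
    have e' : -(e G w s - e G w (Function.update s i false)) =
        e G w (Function.update s i false) - e G w s := by ring
    rwa [e'] at this
  · rw [hs] at h2
    rw [← h2] at h1
    exact h1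
  · rw [hs] at h2; rw [← h2]; simp

theorem e_all (G : Shadow k) (w : Fin k → Bool)
    (h : ∀ (s : Fin k → Bool) (i : Fin k),
      G.loops (Function.update s i true) = G.loops (Function.update s i false) + 1 ∨
      G.loops (Function.update s i false) = G.loops (Function.update s i true) + 1)
    (s s' : Fin k → Bool) : (4 : ℤ) ∣ e G w s' - e G w s := by
  have key : ∀ U : Finset (Fin k), (4 : ℤ) ∣ e G w (U.piecewise s' s) - e G w s := by
    intro U
    induction U using Finset.induction_on with
    | empty => simp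
    | insert i U hi ih =>
      rw [Finset.piecewise_insert]
      have h1 := e_update' G w h (U.piecewise s' s) i (s' i)
      omega
  have := key univ
  rwa [Finset.piecewise_univ] at this

theorem seifert_sign (w : Fin k → Bool) (o : Fin k × Fin 4 → Bool) (i : Fin k) :
    (if xor (o (i, 0)) (o (i, 1)) = w i then (1 : ℤ) else -1) = Shadow.sign w o i := by
  unfold Shadow.sign
  cases h0 : o (i, 0) <;> cases h1 : o (i, 1) <;> cases hw : w i <;> simp

theorem f_support
    (loops_flip : ∀ {k : ℕ} (G : Shadow k), G.Checkerboard → ∀ (s : Fin k → Bool) (i : Fin k),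
      G.loops (Function.update s i true) = G.loops (Function.update s i false) + 1 ∨
        G.loops (Function.update s i false) = G.loops (Function.update s i true) + 1)
    (loops_seifert : ∀ {k : ℕ} (G : Shadow k) (o : Fin k × Fin 4 → Bool), G.Oriented o → G.IsKnot →
      (G.loops (fun i => xor (o (i, 0)) (o (i, 1))) + k) % 2 = 1)
    {k : ℕ} (G : Shadow k) (hG : G.Checkerboard) (w : Fin k → Bool) (o : Fin k × Fin 4 → Bool)
    (ho : G.Oriented o) (hK : G.IsKnot) (j : ℤ) (hj : (G.f w o).coeff j ≠ 0) : (4 : ℤ) ∣ j := by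
  -- there is a corner
  obtain ⟨c⟩ : Nonempty (Fin k × Fin 4) := by
    unfold Shadow.IsKnot at hK
    have h1 : 0 < Nat.card (Quot (fun c c' : Fin k × Fin 4 =>
      c' = G.arc c ∨ c' = (c.1, c.2 + 2))) := by rw [hK]; exact one_pos
    have h2 := (Nat.card_pos_iff.mp h1).1
    obtain ⟨q⟩ := h2
    obtain ⟨c, _⟩ := Quot.exists_rep q
    exact ⟨c⟩
  have hl : ∀ s, 1 ≤ G.loops s := by
    intro s
    unfold Shadow.loops
    have : Nonempty (Quot (fun c c' : Fin k × Fin 4 => c' = G.arc c ∨ c' = (c.1, pair (s c.1) c.2))) :=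
      ⟨Quot.mk _ c⟩
    exact Nat.card_pos
  set W : ℤ := ∑ i, Shadow.sign w o i with hW
  have hW2 : (2 : ℤ) ∣ W - k := by
    have h1 : W - k = ∑ i, (Shadow.sign w o i - 1) := by
      rw [Finset.sum_sub_distrib, ← hW]; simp
    rw [h1]
    refine Finset.dvd_sum fun i _ => ?_
    unfold Shadow.sign
    split_ifs <;> norm_num
  have hs := loops_seifert G o ho hK
  have he0 : e G w (fun i => xor (o (i, 0)) (o (i, 1))) =
      W + 2 * ((G.loops (fun i => xor (o (i, 0)) (o (i, 1))) : ℤ) - 1) := by
    unfold e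
    congr 1
    rw [hW]
    exact Finset.sum_congr rfl fun i _ => seifert_sign w o i
  have hE : ∀ s, (4 : ℤ) ∣ e G w s - (W + 2 * k) := by
    intro s
    have h1 := e_all G w (loops_flip G hG) (fun i => xor (o (i, 0)) (o (i, 1))) s
    rw [he0] at h1
    omega
  have hbr : Sup (W + 2 * k) (G.bracket w) := by
    unfold Shadow.bracket
    refine Sup.sum _ _ fun s _ => ?_
    have h1 := (Sup.dd_pow (G.loops s - 1)).mul_T (∑ i, if s i = w i then 1 else -1)
    rw [mul_comm (T _)]
    refine h1.congr ?_
    have h2 := hE s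
    unfold e at h2
    have h3 := hl s
    rw [Nat.cast_sub h3]
    push_cast
    have e1 : 2 * ((G.loops s : ℤ) - 1) + (∑ i, if s i = w i then (1 : ℤ) else -1) - (W + 2 * k) =
        (∑ i, if s i = w i then (1 : ℤ) else -1) + 2 * ((G.loops s : ℤ) - 1) - (W + 2 * k) := by ring
    rw [e1]
    exact h2
  have hf : Sup (W + 2 * k + -3 * W) (G.f w o) := by
    unfold Shadow.f Shadow.unit
    rw [← hW]
    have h1 := hbr.mul_T (-3 * W)
    split_ifs with hev
    · rw [one_mul, mul_comm (T _)]; exact h1
    · have e1 : (-1 : ℤ[T;T⁻¹]) * T (-3 * W) * G.bracket w = -(G.bracket w * T (-3 * W)) := by ring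
      rw [e1]
      exact h1.neg
  have := hf j hj
  omega

end Pool.Agent.H891R2.HO.O6
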