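import Pool.Agent.H891R2.HO.Defs

set_option autoImplicit false

/-! Task O7 (helper485). -/

namespace Pool.Agent.H891R2.HO.O7

open Finset LaurentPolynomial

theorem coeff_T_mul (m : ℤ) (f : ℤ[T;T⁻¹]) (j : ℤ) : (T m * f).coeff (m + j) = f.coeff j := by
  unfold LaurentPolynomial.T
  rw [AddMonoidAlgebra.coeff_single_mul_add, one_mul]

theorem ext_coeff (f g : ℤ[T;T⁻¹]) (h : ∀ j, f.coeff j = g.coeff j) : f = g := by
  ext j
  exact h j

/-- O7: algebra -/
theorem separate (h g₁ g₂ h' g₁' g₂' : ℤ[T;T⁻¹]) 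
    (a1 : ∀ j, g₁.coeff j ≠ 0 → (4 : ℤ) ∣ j) (a2 : ∀ j, g₂.coeff j ≠ 0 → (4 : ℤ) ∣ j) 
    (b1 : ∀ j, g₁'.coeff j ≠ 0 → (4 : ℤ) ∣ j) (b2 : ∀ j, g₂'.coeff j ≠ 0 → (4 : ℤ) ∣ j) 
    (e : (T 3 + T (-3)) * h = T 3 * g₁ + T (-3) * g₂) 
    (e' : (T 3 + T (-3)) * h' = T 3 * g₁' + T (-3) * g₂') : 
    h = h' ↔ (g₁ = g₁' ∧ g₂ = g₂') := by
  have hne : (T 3 + T (-3) : ℤ[T;T⁻¹]) ≠ 0 := by
    intro h0
    have h1 := congrArg (fun f : ℤ[T;T⁻¹] => f.coeff 3) h0
    have h2 : (T 3 : ℤ[T;T⁻¹]).coeff 3 = 1 := by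
      unfold LaurentPolynomial.T
      rw [AddMonoidAlgebra.coeff_single, Finsupp.single_eq_same]
    have h3 : (T (-3) : ℤ[T;T⁻¹]).coeff 3 = 0 := by
      unfold LaurentPolynomial.T
      rw [AddMonoidAlgebra.coeff_single, Finsupp.single_eq_of_ne (by norm_num)]
    simp [h2, h3] at h1
  constructor
  · rintro rfl
    rw [e] at e'
    have h1 : T 3 * (g₁ - g₁') = T (-3) * (g₂' - g₂) := by
      rw [mul_sub, mul_sub, sub_eq_sub_iff_add_eq_add, e', add_comm]
    have h2 : ∀ i, (g₁ - g₁').coeff i = (g₂' - g₂).coeff (i + 6) := by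
      intro i
      have h3 := coeff_T_mul 3 (g₁ - g₁') i
      have h4 := coeff_T_mul (-3) (g₂' - g₂) (i + 6)
      have h5 : (-3 : ℤ) + (i + 6) = 3 + i := by ring
      rw [h5, ← h1, h3] at h4
      exact h4
    have h3 : ∀ i, (g₁ - g₁').coeff i = 0 := by
      intro i
      by_contra hi
      have hi' := hi
      rw [h2] at hi'
      have d1 : (4 : ℤ) ∣ i := by
        by_contra hd
        have q1 : g₁.coeff i = 0 := by
          by_contra q; exact hd (a1 i q)
        have q2 : g₁'.coeff i = 0 := by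
          by_contra q; exact hd (b1 i q)
        apply hi
        simp [q1, q2]
      have d2 : (4 : ℤ) ∣ i + 6 := by
        by_contra hd
        have q1 : g₂.coeff (i + 6) = 0 := by
          by_contra q; exact hd (a2 _ q)
        have q2 : g₂'.coeff (i + 6) = 0 := by
          by_contra q; exact hd (b2 _ q)
        apply hi'
        simp [q1, q2]
      omega
    refine ⟨?_, ?_⟩
    · apply ext_coeff
      intro j
      have := h3 j
      simp at this
      linarith
    · apply ext_coeff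
      intro j
      have h4 := h2 (j - 6)
      rw [h3, sub_add_cancel] at h4
      simp at h4
      linarith
  · rintro ⟨rfl, rfl⟩
    rw [← e'] at e
    exact mul_left_cancel₀ hne e

end Pool.Agent.H891R2.HO.O7
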