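import Pool.Agent.H891R2.HO.O1
import Pool.Agent.H891R2.HO.O2
import Pool.Agent.H891R2.HO.O3
import Pool.Agent.H891R2.HO.O4
import Pool.Agent.H891R2.HO.O5
import Pool.Agent.H891R2.HO.O6
import Pool.Agent.H891R2.HO.O7

set_option autoImplicit false

namespace Pool.Agent.H891R2.HO

open Finset LaurentPolynomial

variable {k : ℕ}

theorem loops_flip (G : Shadow k) (hG : G.Checkerboard) (s : Fin k → Bool) (i : Fin k) : 
    G.loops (Function.update s i true) = G.loops (Function.update s i false) + 1 ∨ 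
      G.loops (Function.update s i false) = G.loops (Function.update s i true) + 1 := 
  O1.loops_flip G hG s i

theorem comps_eq (G : Shadow k) (hG : G.Checkerboard) (i₀ : Fin k) (b : Bool) (s : Fin k → Bool) : 
    G.comps i₀ b (fun i => s i) = 
      min (G.loops (Function.update s i₀ true)) (G.loops (Function.update s i₀ false)) := by
  refine O2.comps_eq ?_ G hG i₀ b s
  intro k G hG s i; exact loops_flip G hG s i

theorem bracket_switch (G : Shadow k) (hG : G.Checkerboard) (w : Fin k → Bool) (i₀ : Fin k) (b : Bool) : 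
    G.bracket w + G.bracket (switch w i₀) = -(T 3 + T (-3)) * G.bracketK w i₀ b := by
  refine O3.bracket_switch ?_ ?_ G hG w i₀ b
  · intro k G hG s i; exact loops_flip G hG s i
  · intro k G hG i₀ b s; exact comps_eq G hG i₀ b s

theorem fK_relation (G : Shadow k) (hG : G.Checkerboard) (w : Fin k → Bool) 
    (o : Fin k × Fin 4 → Bool) (i₀ : Fin k) (b : Bool) (hs : Shadow.sign w o i₀ = 1) : 
    (T 3 + T (-3)) * G.fK w o i₀ b = T 3 * G.f w o + T (-3) * G.f (switch w i₀) o := 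
  O4.fK_relation (fun G hG w i₀ b => bracket_switch G hG w i₀ b) G hG w o i₀ b hs

theorem loops_seifert (G : Shadow k) (o : Fin k × Fin 4 → Bool) (ho : G.Oriented o) (hK : G.IsKnot) : 
    (G.loops (fun i => xor (o (i, 0)) (o (i, 1))) + k) % 2 = 1 := O5.loops_seifert G o ho hK

theorem f_support (G : Shadow k) (hG : G.Checkerboard) (w : Fin k → Bool) (o : Fin k × Fin 4 → Bool) 
    (ho : G.Oriented o) (hK : G.IsKnot) (j : ℤ) (hj : (G.f w o).coeff j ≠ 0) : (4 : ℤ) ∣ j := by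
  refine O6.f_support ?_ ?_ G hG w o ho hK j hj
  · intro k G hG s i; exact loops_flip G hG s i
  · intro k G o ho hK; exact loops_seifert G o ho hK

theorem separate (h g₁ g₂ h' g₁' g₂' : ℤ[T;T⁻¹]) 
    (a1 : ∀ j, g₁.coeff j ≠ 0 → (4 : ℤ) ∣ j) (a2 : ∀ j, g₂.coeff j ≠ 0 → (4 : ℤ) ∣ j) 
    (b1 : ∀ j, g₁'.coeff j ≠ 0 → (4 : ℤ) ∣ j) (b2 : ∀ j, g₂'.coeff j ≠ 0 → (4 : ℤ) ∣ j) 
    (e : (T 3 + T (-3)) * h = T 3 * g₁ + T (-3) * g₂) 
    (e' : (T 3 + T (-3)) * h' = T 3 * g₁' + T (-3) * g₂') : 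
    h = h' ↔ (g₁ = g₁' ∧ g₂ = g₂') := O7.separate h g₁ g₂ h' g₁' g₂' a1 a2 b1 b2 e e'

end Pool.Agent.H891R2.HO
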