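import Mathlib

set_option autoImplicit false

/-!
Knot diagrams, and knotoid diagrams of height at most one.
-/

namespace Pool.Agent.H891R2.HO

open Finset LaurentPolynomial

variable {k : ℕ}

/-- The shadow of a link diagram with `k > 0` crossings (on any closed oriented surface, all components
passing through crossings): at the crossing `i` four arcs end, at the corners
`(i, 0), (i, 1), (i, 2), (i, 3)` in counterclockwise order; `arc c` is the other end of the arc which
ends at the corner `c`. -/
structure Shadow (k : ℕ) where
  arc : Fin k × Fin 4 → Fin k × Fin 4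
  arc_arc : ∀ c, arc (arc c) = c
  arc_ne : ∀ c, arc c ≠ c

/-- the two smoothings of a crossing: `t = true` joins the corner `0` with `1` and `2` with `3`,
`t = false` joins `1` with `2` and `3` with `0` -/
def pair (t : Bool) (j : Fin 4) : Fin 4 := if t then ![1, 0, 3, 2] j else ![3, 2, 1, 0] j

/-- the value of the additional component -/
noncomputable def dd : ℤ[T;T⁻¹] := -T 2 - T (-2)

namespace Shadow

/-- the number of circles of the state `s` -/
noncomputable def loops (G : Shadow k) (s : Fin k → Bool) : ℕ :=
  Nat.card (Quot (fun c c' : Fin k × Fin 4 => c' = G.arc c ∨ c' = (c.1, pair (s c.1) c.2)))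

/-- The Kauffman bracket of the diagram with the shadow `G` and the crossings `w`. `w i = true`: the
strand which joins the corners `0` and `2` of the crossing `i` is the lower one; `w i = false`: it is the
upper one. The smoothing `t` of the crossing `i` is of type `A` if `t = w i` and of type `B` otherwise. -/
noncomputable def bracket (G : Shadow k) (w : Fin k → Bool) : ℤ[T;T⁻¹] :=
  ∑ s : Fin k → Bool, T (∑ i, if s i = w i then 1 else -1) * dd ^ (G.loops s - 1)

/-- `o` is an orientation: `o c = true` means that the strand at the corner `c` runs into the crossing,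
`o c = false` that it runs out of the crossing -/
def Oriented (G : Shadow k) (o : Fin k × Fin 4 → Bool) : Prop :=
  (∀ c, o (G.arc c) = !(o c)) ∧ ∀ i j, o (i, j + 2) = !(o (i, j))

/-- the sign of the crossing `i` -/
def sign (w : Fin k → Bool) (o : Fin k × Fin 4 → Bool) (i : Fin k) : ℤ :=
  if (o (i, 0) = o (i, 1)) ↔ w i = true then -1 else 1

/-- `(-A^3)^{-n}` -/
noncomputable def unit (n : ℤ) : ℤ[T;T⁻¹] := (if Even n then 1 else -1) * T (-3 * n)

/-- the normalised bracket of the diagram with the shadow `G`, the crossings `w` and the orientation
`o` -/
noncomputable def f (G : Shadow k) (w : Fin k → Bool) (o : Fin k × Fin 4 → Bool) : ℤ[T;T⁻¹] :=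
  unit (∑ i, sign w o i) * G.bracket w

/-- the diagrams with the shadow `G` have one component -/
def IsKnot (G : Shadow k) : Prop :=
  Nat.card (Quot (fun c c' : Fin k × Fin 4 => c' = G.arc c ∨ c' = (c.1, c.2 + 2))) = 1

/-- The regions can be coloured by two colours such that neighbouring regions have different colours
(this holds for all diagrams in the sphere): `χ c` is the colour of the region at the left side of the
arc which leaves the crossing at the corner `c`. -/
def Checkerboard (G : Shadow k) : Prop :=
  ∃ χ : Fin k × Fin 4 → Bool, (∀ c, χ (G.arc c) = !(χ c)) ∧ ∀ i j, χ (i, j + 1) = !(χ (i, j))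

/-! ### The knotoid diagrams `K(G, w, i₀, b)`

Delete one of the two short strands at the crossing `i₀` of the diagram `(G, w)` of a knot:
for `b = false` the strand from the corner `1` to the corner `3`, for `b = true` the strand from the
corner `0` to the corner `2`. This gives a knotoid diagram with the other crossings, whose tail
and head are the two corners where the strand has been deleted. Its endpoints lie in regions which are
adjacent along the remaining strand; so these are the knotoid diagrams of height at most one. -/

/-- the number of components (circles and the interval) of the state `s` of the knotoid diagram -/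
noncomputable def comps (G : Shadow k) (i₀ : Fin k) (b : Bool) (s : {i : Fin k // i ≠ i₀} → Bool) : ℕ :=
  Nat.card (Quot (fun c c' : Fin k × Fin 4 => c' = G.arc c ∨ 
    (∃ h : c.1 ≠ i₀, c' = (c.1, pair (s ⟨c.1, h⟩) c.2)) ∨ 
    (b = false ∧ c = (i₀, 0) ∧ c' = (i₀, 2)) ∨ (b = true ∧ c = (i₀, 1) ∧ c' = (i₀, 3))))

/-- the bracket of the knotoid diagram -/
noncomputable def bracketK (G : Shadow k) (w : Fin k → Bool) (i₀ : Fin k) (b : Bool) : ℤ[T;T⁻¹] :=
  ∑ s : {i : Fin k // i ≠ i₀} → Bool, T (∑ i, if s i = w i then 1 else -1) * dd ^ (G.comps i₀ b s - 1)

/-- the normalised bracket of the knotoid diagram -/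
noncomputable def fK (G : Shadow k) (w : Fin k → Bool) (o : Fin k × Fin 4 → Bool) (i₀ : Fin k) (b : Bool) : 
    ℤ[T;T⁻¹] :=
  unit (∑ i : {i : Fin k // i ≠ i₀}, sign w o i) * G.bracketK w i₀ b

end Shadow

/-- the crossing `i₀` is changed -/
def switch (w : Fin k → Bool) (i₀ : Fin k) : Fin k → Bool := Function.update w i₀ (!(w i₀))

end Pool.Agent.H891R2.HO
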