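import Pool.Agent.H891R2.HO.All

set_option autoImplicit false

namespace Pool.Agent.H891R2.HO

open Finset LaurentPolynomial

namespace Fin'

/-- two knotoid diagrams of height at most one -/
theorem main {k k' : ℕ} (G : Shadow k) (hG : G.Checkerboard) (hK : G.IsKnot) (w : Fin k → Bool) 
    (o : Fin k × Fin 4 → Bool) (ho : G.Oriented o) (i₀ : Fin k) (b : Bool) (hs : Shadow.sign w o i₀ = 1) 
    (G' : Shadow k') (hG' : G'.Checkerboard) (hK' : G'.IsKnot) (w' : Fin k' → Bool) 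
    (o' : Fin k' × Fin 4 → Bool) (ho' : G'.Oriented o') (i₀' : Fin k') (b' : Bool) 
    (hs' : Shadow.sign w' o' i₀' = 1) : 
    G.fK w o i₀ b = G'.fK w' o' i₀' b' ↔ 
      (G.f w o = G'.f w' o' ∧ G.f (switch w i₀) o = G'.f (switch w' i₀') o') := 
  separate _ _ _ _ _ _ (f_support G hG w o ho hK) (f_support G hG (switch w i₀) o ho hK) 
    (f_support G' hG' w' o' ho' hK') (f_support G' hG' (switch w' i₀') o' ho' hK') 
    (fK_relation G hG w o i₀ b hs) (fK_relation G' hG' w' o' i₀' b' hs')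

theorem one {k : ℕ} (G : Shadow k) (hG : G.Checkerboard) (hK : G.IsKnot) (w : Fin k → Bool) 
    (o : Fin k × Fin 4 → Bool) (ho : G.Oriented o) (i₀ : Fin k) (b : Bool) (hs : Shadow.sign w o i₀ = 1) : 
    G.fK w o i₀ b = 1 ↔ (G.f w o = 1 ∧ G.f (switch w i₀) o = 1) := by
  have h1 : ∀ j, (1 : ℤ[T;T⁻¹]).coeff j ≠ 0 → (4 : ℤ) ∣ j := by
    intro j hj
    by_cases h : j = 0
    · rw [h]; exact dvd_zero _
    · exfalso
      apply hj
      rw [← T_zero]
      rw [show (T 0 : ℤ[T;T⁻¹]).coeff j = if (0 : ℤ) = j then 1 else 0 from Finsupp.single_apply]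
      rw [if_neg (fun h' => h h'.symm)]
  exact separate _ _ _ 1 1 1 (f_support G hG w o ho hK) (f_support G hG (switch w i₀) o ho hK) h1 h1
    (fK_relation G hG w o i₀ b hs) (by ring)

end Fin'

end Pool.Agent.H891R2.HO
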