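import Pool.Agent.H891R2.HO.Defs
import Pool.Agent.H891R2.MT.T2

set_option autoImplicit false

namespace Pool.Agent.H891R2.HO.O1

open Finset LaurentPolynomial Equiv Pool.Agent.H891R2.MT.T2

variable {k : ℕ}

theorem pair_pair (t : Bool) (j : Fin 4) : pair t (pair t j) = j := by
  revert t j; decide

theorem pair_or (t : Bool) (j : Fin 4) : pair t j = j + 1 ∨ j = pair t j + 1 := by
  revert t j; decide

theorem chi_pair {χ : Fin k × Fin 4 → Bool} (h : ∀ i j, χ (i, j + 1) = !(χ (i, j)))
    (i : Fin k) (t : Bool) (j : Fin 4) : χ (i, pair t j) = !(χ (i, j)) := by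
  rcases pair_or t j with h1 | h1
  · rw [h1, h]
  · have h2 := h i (pair t j)
    rw [← h1] at h2
    rw [h2, Bool.not_not]

/-- the flow of a state -/
def flow (G : Shadow k) (χ : Fin k × Fin 4 → Bool) (h1 : ∀ c, χ (G.arc c) = !(χ c))
    (h2 : ∀ i j, χ (i, j + 1) = !(χ (i, j))) (s : Fin k → Bool) : Perm (Fin k × Fin 4) where
  toFun c := if χ c = true then (c.1, pair (s c.1) c.2) else G.arc c
  invFun c := if χ c = true then G.arc c else (c.1, pair (s c.1) c.2)
  left_inv c := by
    by_cases h : χ c = true
    · have h3 : χ (c.1, pair (s c.1) c.2) = false := by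
        rw [chi_pair h2]
        show (!(χ c)) = false
        rw [h]; rfl
      simp only [h, if_true, h3, Bool.false_eq_true, if_false, pair_pair]
    · have h0 : χ c = false := by simpa using h
      have h3 : χ (G.arc c) = true := by rw [h1, h0]; rfl
      simp only [h0, Bool.false_eq_true, if_false, h3, if_true, G.arc_arc]
  right_inv c := by
    by_cases h : χ c = true
    · have h3 : χ (G.arc c) = false := by rw [h1, h]; rfl
      simp only [h, if_true, h3, Bool.false_eq_true, if_false, G.arc_arc]
    · have h0 : χ c = false := by simpa using h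
      have h3 : χ (c.1, pair (s c.1) c.2) = true := by
        rw [chi_pair h2]
        show (!(χ c)) = true
        rw [h0]; rfl
      simp only [h0, Bool.false_eq_true, if_false, h3, if_true, pair_pair]

theorem flow_true {G : Shadow k} {χ : Fin k × Fin 4 → Bool} {h1 : ∀ c, χ (G.arc c) = !(χ c)}
    {h2 : ∀ i j, χ (i, j + 1) = !(χ (i, j))} (s : Fin k → Bool) (c : Fin k × Fin 4)
    (h : χ c = true) : flow G χ h1 h2 s c = (c.1, pair (s c.1) c.2) := by
  show (if χ c = true then (c.1, pair (s c.1) c.2) else G.arc c) = _
  rw [if_pos h]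

theorem flow_false {G : Shadow k} {χ : Fin k × Fin 4 → Bool} {h1 : ∀ c, χ (G.arc c) = !(χ c)}
    {h2 : ∀ i j, χ (i, j + 1) = !(χ (i, j))} (s : Fin k → Bool) (c : Fin k × Fin 4)
    (h : χ c = false) : flow G χ h1 h2 s c = G.arc c := by
  show (if χ c = true then (c.1, pair (s c.1) c.2) else G.arc c) = _
  rw [if_neg (by rw [h]; exact Bool.false_ne_true)]

theorem loops_cyc (G : Shadow k) (χ : Fin k × Fin 4 → Bool) (h1 : ∀ c, χ (G.arc c) = !(χ c))
    (h2 : ∀ i j, χ (i, j + 1) = !(χ (i, j))) (s : Fin k → Bool) :
    G.loops s = cyc (flow G χ h1 h2 s) := by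
  unfold Shadow.loops cyc
  apply card_quot_congr
  · rintro x y (rfl | rfl)
    · by_cases h : χ x = true
      · have h3 : χ (G.arc x) = false := by rw [h1, h]; rfl
        symm
        apply Quot.sound
        show flow G χ h1 h2 s (G.arc x) = x
        rw [flow_false s _ h3, G.arc_arc]
      · have h0 : χ x = false := by simpa using h
        exact Quot.sound (flow_false s _ h0)
    · by_cases h : χ x = true
      · exact Quot.sound (flow_true s _ h)
      · have h0 : χ x = false := by simpa using h
        have h3 : χ (x.1, pair (s x.1) x.2) = true := by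
          rw [chi_pair h2]
          show (!(χ x)) = true
          rw [h0]; rfl
        symm
        apply Quot.sound
        show flow G χ h1 h2 s (x.1, pair (s x.1) x.2) = x
        rw [flow_true s _ h3]
        show (x.1, pair (s x.1) (pair (s x.1) x.2)) = x
        rw [pair_pair]
  · intro x y hxy
    have hxy' : flow G χ h1 h2 s x = y := hxy
    by_cases h : χ x = true
    · rw [flow_true s _ h] at hxy'
      exact Quot.sound (Or.inr hxy'.symm)
    · have h0 : χ x = false := by simpa using h
      rw [flow_false s _ h0] at hxy'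
      exact Quot.sound (Or.inl hxy'.symm)

theorem four_cases (j : Fin 4) : j = 0 ∨ j = 1 ∨ j = 2 ∨ j = 3 := by
  revert j; decide

theorem exists_uv (χ : Fin k × Fin 4 → Bool) (h2 : ∀ i j, χ (i, j + 1) = !(χ (i, j)))
    (i : Fin k) : ∃ u v : Fin 4, u ≠ v ∧ χ (i, u) = false ∧ χ (i, v) = false ∧
      ∀ j, χ (i, j) = true → (pair true j = u ∧ pair false j = v) ∨
        (pair true j = v ∧ pair false j = u) := by
  have a1 : χ (i, 1) = !(χ (i, 0)) := h2 i 0
  have a2 : χ (i, 2) = !(χ (i, 1)) := h2 i 1
  have a3 : χ (i, 3) = !(χ (i, 2)) := h2 i 2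
  by_cases h : χ (i, 0) = true
  · rw [h] at a1
    rw [a1] at a2
    rw [a2] at a3
    refine ⟨1, 3, by decide, a1, a3, fun j hj => ?_⟩
    have hj4 := four_cases j
    rcases hj4 with rfl | rfl | rfl | rfl
    · left; decide
    · rw [a1] at hj; exact absurd hj (by decide)
    · right; decide
    · rw [a3] at hj; exact absurd hj (by decide)
  · have h0 : χ (i, 0) = false := by simpa using h
    rw [h0] at a1
    rw [a1] at a2
    rw [a2] at a3
    refine ⟨0, 2, by decide, h0, a2, fun j hj => ?_⟩
    have hj4 := four_cases j
    rcases hj4 with rfl | rfl | rfl | rfl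
    · rw [h0] at hj; exact absurd hj (by decide)
    · left; decide
    · rw [a2] at hj; exact absurd hj (by decide)
    · right; decide

/-- O1: changing one smoothing of a checkerboard coloured diagram changes the number of circles by one -/
theorem loops_flip (G : Shadow k) (hG : G.Checkerboard) (s : Fin k → Bool) (i : Fin k) :
    G.loops (Function.update s i true) = G.loops (Function.update s i false) + 1 ∨
      G.loops (Function.update s i false) = G.loops (Function.update s i true) + 1 := by
  obtain ⟨χ, h1, h2⟩ := hG
  obtain ⟨u, v, huv, hu, hv, hj⟩ := exists_uv χ h2 i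
  have key : flow G χ h1 h2 (Function.update s i true) =
      swap (i, u) (i, v) * flow G χ h1 h2 (Function.update s i false) := by
    ext1 c
    rw [Perm.mul_apply]
    by_cases h : χ c = true
    · rw [flow_true _ _ h, flow_true _ _ h]
      by_cases hc : c.1 = i
      · obtain ⟨a, j⟩ := c
        simp only at hc
        subst hc
        rw [Function.update_self, Function.update_self]
        rcases hj j h with ⟨e1, e2⟩ | ⟨e1, e2⟩
        · rw [e1, e2, swap_apply_right]
        · rw [e1, e2, swap_apply_left]
      · rw [Function.update_of_ne hc, Function.update_of_ne hc, swap_apply_of_ne_of_ne]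
        · intro hh
          exact hc (congrArg Prod.fst hh)
        · intro hh
          exact hc (congrArg Prod.fst hh)
    · have h0 : χ c = false := by simpa using h
      rw [flow_false _ _ h0, flow_false _ _ h0, swap_apply_of_ne_of_ne]
      · intro hh
        have := h1 c
        rw [hh, hu, h0] at this
        exact absurd this (by decide)
      · intro hh
        have := h1 c
        rw [hh, hv, h0] at this
        exact absurd this (by decide)
  rw [loops_cyc G χ h1 h2, loops_cyc G χ h1 h2, key]
  have hne : ((i, u) : Fin k × Fin 4) ≠ (i, v) := fun h => huv (congrArg Prod.snd h)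
  obtain ⟨c1, c2⟩ := cyc_swap (flow G χ h1 h2 (Function.update s i false)) (i, u) (i, v) hne
  by_cases hs : (flow G χ h1 h2 (Function.update s i false)).SameCycle (i, u) (i, v)
  · exact Or.inl (c1 hs)
  · exact Or.inr (c2 hs).symm

end Pool.Agent.H891R2.HO.O1
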